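import Pool.Agent.N402.VE.Edge
import Pool.Agent.N561.C.Stm

/-!
# The geometric meaning of the potential near the point of the clasp
-/

set_option autoImplicit false
set_option linter.all false

namespace Pool.Agent.N402.VK

open Filter Topology Metric Set
open Pool.Agent.W711.HT hiding XX
open Pool.Agent.W709.VC (Dv)
open Pool.Agent.W505.VC
open Pool.Agent.W583.HTP (half_re two_mul_re arg_two_mul)
open Pool.Agent.W864.AR (t1 t2)
open Pool.Agent.TH609.Z (ex)
open Pool.Agent.W554.HT (tri ang_eq)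
open Pool.Agent.N561 (LL LS RR TH dst sg GG SGP SW EFW S_SGP S_EDGE SGQ S_CSG S_CGEO GEOS zc)
open Pool.Agent.N402.VE
open scoped Real

/-- the square root -/
noncomputable def rt : ℂ := (2 * Complex.I - 1) ^ (1 / 2 : ℂ)

lemma x0_ne : (2 * Complex.I - 1 : ℂ) ≠ 0 := by
  intro h
  have := congrArg Complex.im h
  simp at this

lemma rt_sq : rt ^ 2 = 2 * Complex.I - 1 := by
  unfold rt
  rw [Complex.cpow_def_of_ne_zero x0_ne, pow_two, ← Complex.exp_add]
  have : Complex.log (2 * Complex.I - 1) * (1 / 2) + Complex.log (2 * Complex.I - 1) * (1 / 2) =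
      Complex.log (2 * Complex.I - 1) := by ring
  rw [this, Complex.exp_log x0_ne]

lemma rt_re : 0 < rt.re := by
  unfold rt
  rw [Complex.cpow_def_of_ne_zero x0_ne, Complex.exp_re]
  apply mul_pos (Real.exp_pos _)
  have e : (Complex.log (2 * Complex.I - 1) * (1 / 2 : ℂ)).im = (2 * Complex.I - 1 : ℂ).arg / 2 := by
    rw [mul_one_div, half_im, Complex.log_im]
  rw [e]
  apply Real.cos_pos_of_mem_Ioo
  have h1 := Complex.neg_pi_lt_arg (2 * Complex.I - 1)
  have h2 := Complex.arg_le_pi (2 * Complex.I - 1)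
  have h3 : (2 * Complex.I - 1 : ℂ).arg ≠ π := by
    rw [Ne, Complex.arg_eq_pi_iff]
    rintro ⟨-, h⟩
    simp at h
  have h4 := lt_of_le_of_ne h2 h3
  constructor <;> linarith

lemma rt_parts : rt.re * rt.im = 1 ∧ rt.re ^ 2 + 1 = rt.im ^ 2 := by
  have h := rt_sq
  have h1 := congrArg Complex.re h
  have h2 := congrArg Complex.im h
  rw [pow_two] at h1 h2
  simp only [Complex.mul_re, Complex.mul_im, Complex.sub_re, Complex.sub_im, Complex.I_re,
    Complex.I_im, Complex.one_re, Complex.one_im, Complex.re_ofNat, Complex.im_ofNat] at h1 h2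
  constructor <;> nlinarith

lemma rt_bounds : 3 / 4 < rt.re ∧ rt.re < 1 ∧ 1 < rt.im ∧ 2 * rt.im < 2 + rt.re := by
  have h0 := rt_re
  obtain ⟨h1, h2⟩ := rt_parts
  have h3 : 0 < rt.im := by
    by_contra hc
    push Not at hc
    nlinarith
  have h4 : 1 < rt.im := by nlinarith
  have h5 : rt.re < 1 := by nlinarith
  have h6 : 3 / 4 < rt.re := by
    by_contra hc
    push Not at hc
    have h7 : 4 / 3 ≤ rt.im := by nlinarith
    nlinarith
  refine ⟨h6, h5, h4, ?_⟩
  nlinarith

/-- the exponential of `i z₀` -/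
noncomputable def w0 : ℂ := -1 - Complex.I + rt

lemma w0_re : w0.re = rt.re - 1 := by
  unfold w0
  simp
  ring

lemma w0_im : w0.im = rt.im - 1 := by
  unfold w0
  simp
  ring

lemma w0_ne : w0 ≠ 0 := by
  intro h
  have := congrArg Complex.im h
  rw [w0_im] at this
  simp at this
  linarith [rt_bounds.2.2.1]

lemma zc_eq : zc 0 = -Complex.I * Complex.log w0 := by
  unfold zc w0 rt
  rw [zero_div, Complex.cos_zero, mul_one, mul_one, one_pow]

lemma ex_zc : ex (zc 0) = w0 := by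
  unfold ex
  rw [zc_eq]
  have : Complex.I * (-Complex.I * Complex.log w0) = Complex.log w0 := by
    linear_combination (-Complex.log w0) * Complex.I_mul_I
  rw [this, Complex.exp_log w0_ne]

lemma w0_eq : w0 ^ 2 + 2 * (1 + Complex.I) * w0 + 1 = 0 := by
  have h := rt_sq
  unfold w0
  linear_combination h - Complex.I_sq

lemma cos_zc : Complex.cos (zc 0) = -1 - Complex.I := by
  have h1 : Complex.cos (zc 0) = (ex (zc 0) + (ex (zc 0))⁻¹) / 2 := by
    rw [Complex.cos, ex, ← Complex.exp_neg]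
    congr 3
    · ring
    · ring
  rw [h1, ex_zc]
  have h2 := w0_eq
  have h3 := w0_ne
  field_simp
  linear_combination h2

lemma zc_re : π / 2 < (zc 0).re := by
  have h1 : (zc 0).re = w0.arg := by
    rw [zc_eq]
    simp [Complex.log_im]
  rw [h1]
  by_contra hc
  push Not at hc
  have h2 := (Complex.arg_nonneg_iff (z := w0)).2 (by rw [w0_im]; linarith [rt_bounds.2.2.1])
  have h3 := (Complex.abs_arg_le_pi_div_two_iff (z := w0)).1 (by
    rw [abs_of_nonneg h2]; exact hc)
  rw [w0_re] at h3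
  linarith [rt_bounds.2.1]

/-- positivity of the imaginary part of a quotient -/
lemma div_im_pos {N D : ℂ} (hD : D ≠ 0) (h : 0 < N.im * D.re - N.re * D.im) : 0 < (N / D).im := by
  rw [Complex.div_im]
  have h1 : 0 < Complex.normSq D := Complex.normSq_pos.2 hD
  rw [← sub_div]
  exact div_pos h h1

lemma im_t1_one : 0 < (t1 (1 + 2 * Complex.I) 1).im := by
  unfold t1
  apply div_im_pos
  · intro h
    have := congrArg Complex.im h
    simp at this
  · simp
    try norm_num

lemma im_t2_one : 0 < (t2 (1 + 2 * Complex.I) 1).im := by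
  unfold t2
  apply div_im_pos
  · intro h
    have := congrArg Complex.im h
    simp at this
    try norm_num at this
  · simp
    try norm_num

lemma im_t1_w : 0 < (t1 (1 + 2 * Complex.I) w0).im := by
  obtain ⟨b1, b2, b3, b4⟩ := rt_bounds
  obtain ⟨p1, p2⟩ := rt_parts
  have hr := w0_re
  have hi := w0_im
  have r1 : (1 + (1 + 2 * Complex.I) * w0).re = 2 + rt.re - 2 * rt.im := by
    simp [hr, hi]
    ring
  have i1 : (1 + (1 + 2 * Complex.I) * w0).im = rt.im + 2 * rt.re - 3 := by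
    simp [hr, hi]
    ring
  have r2 : ((1 + 2 * Complex.I) * (w0 + 1)).re = 2 + rt.re - 2 * rt.im := by
    simp [hr, hi]
    ring
  have i2 : ((1 + 2 * Complex.I) * (w0 + 1)).im = rt.im + 2 * rt.re - 1 := by
    simp [hr, hi]
    ring
  unfold t1
  apply div_im_pos
  · intro h
    have := congrArg Complex.re h
    rw [r1] at this
    simp at this
    linarith
  · rw [r1, i1, r2, i2]
    nlinarith

lemma im_t2_w : 0 < (t2 (1 + 2 * Complex.I) w0).im := by
  obtain ⟨b1, b2, b3, b4⟩ := rt_bounds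
  obtain ⟨p1, p2⟩ := rt_parts
  have hr := w0_re
  have hi := w0_im
  have r1 : ((1 + 2 * Complex.I) * (1 + w0)).re = 2 + rt.re - 2 * rt.im := by
    simp [hr, hi]
    ring
  have i1 : ((1 + 2 * Complex.I) * (1 + w0)).im = rt.im + 2 * rt.re - 1 := by
    simp [hr, hi]
    ring
  have r2 : ((1 + 2 * Complex.I - 1) * w0).re = -2 * (rt.im - 1) := by
    simp [hr, hi]
  have i2 : ((1 + 2 * Complex.I - 1) * w0).im = 2 * (rt.re - 1) := by
    simp [hr, hi]
  unfold t2
  apply div_im_pos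
  · intro h
    have := congrArg Complex.re h
    rw [r1] at this
    simp at this
    linarith
  · rw [r1, i1, r2, i2]
    nlinarith

/-- the arguments of the cosines are in the domain -/
theorem mem_Om_phi' {δ φ : ℂ} (h0 : 0 < δ.re) (h1 : 2 * π * δ.re < π)
    (h2 : 2 * π * |δ.im| < φ.im) (h3 : |φ.re| < π) :
    π * δ + φ / 2 ∈ Om ∧ π * δ - φ / 2 ∈ Om := by
  have hpi := Real.pi_gt_three
  have h4 := abs_lt.1 h3
  have h5 := mul_pos Real.pi_pos h0
  have h6 := abs_le.1 (le_refl |δ.im|)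
  constructor
  · constructor
    · rw [Complex.add_re, pi_mul_re, half_re, abs_lt]; constructor <;> linarith [h4.1, h4.2]
    · left
      rw [Complex.add_im, pi_mul_im, half_im]
      intro h
      nlinarith [h6.1, h6.2]
  · constructor
    · rw [Complex.sub_re, pi_mul_re, half_re, abs_lt]; constructor <;> linarith [h4.1, h4.2]
    · left
      rw [Complex.sub_im, pi_mul_im, half_im]
      intro h
      nlinarith [h6.1, h6.2]

/-- the sign of the imaginary part of the cosine -/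
lemma cos_im_neg {z : ℂ} (h1 : 0 < z.re) (h2 : z.re < π) (h3 : 0 < z.im) :
    (Complex.cos z).im < 0 := by
  have e : (Complex.cos z).im = -(Real.sin z.re * Real.sinh z.im) := by
    conv_lhs => rw [← Complex.re_add_im z]
    exact (cos_parts _ _).2
  rw [e]
  have := mul_pos (Real.sin_pos_of_pos_of_lt_pi h1 h2) (Real.sinh_pos_iff.2 h3)
  linarith

lemma arg_neg_bounds {z : ℂ} (h : z.im < 0) : -π < z.arg ∧ z.arg < 0 :=
  ⟨Complex.neg_pi_lt_arg z, (Complex.arg_neg_iff).2 h⟩

theorem cgeo (hG : S_CSG) : S_CGEO := by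
  obtain ⟨r, c, C, hS⟩ := hG
  have hpi := Real.pi_gt_three
  have hr0 := hS.hr.1
  have hr1 := hS.hr.2
  set φ₀ : ℂ := zc 0 with hφ₀
  -- the base point
  have m0 : (0 : ℂ) ∈ Rc r r := by
    constructor <;> simpa using hr0
  have mφ : φ₀ ∈ ball φ₀ r := mem_ball_self hr0
  obtain ⟨b1, b2, b3⟩ := hS.dpos 0 m0 φ₀ mφ
  obtain ⟨i1, i2, i3⟩ := hS.im φ₀ mφ
  rw [Complex.zero_re, abs_zero, add_zero] at b2
  have hu_re : (2 * π * dst 0 φ₀ : ℂ).re = 2 * π * (dst 0 φ₀).re := by
    rw [show (2 * π * dst 0 φ₀ : ℂ) = ((2 * π : ℝ) : ℂ) * dst 0 φ₀ by push_cast; ring]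
    exact Complex.re_ofReal_mul _ _
  have hu_im : (2 * π * dst 0 φ₀ : ℂ).im = 2 * π * (dst 0 φ₀).im := by
    rw [show (2 * π * dst 0 φ₀ : ℂ) = ((2 * π : ℝ) : ℂ) * dst 0 φ₀ by push_cast; ring]
    exact Complex.im_ofReal_mul _ _
  have hX : ex (2 * π * dst 0 φ₀) = 1 + 2 * Complex.I := by
    have e1 := hS.dcos 0 m0 φ₀ mφ
    rw [Complex.cos_zero, cos_zc, one_mul] at e1
    have e2 : (2 + 1 + (-1 - Complex.I) : ℂ) ≠ 0 := by
      intro h
      have := congrArg Complex.im h
      simp at this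
    rw [eq_div_iff e2] at e1
    have e3 : Complex.cos (2 * π * dst 0 φ₀) =
        (ex (2 * π * dst 0 φ₀) + (ex (2 * π * dst 0 φ₀))⁻¹) / 2 := by
      rw [Complex.cos, ex, ← Complex.exp_neg]
      congr 3
      · ring
      · ring
    have hne : ex (2 * π * dst 0 φ₀) ≠ 0 := Complex.exp_ne_zero _
    have him : 0 < (ex (2 * π * dst 0 φ₀)).im := by
      unfold ex
      rw [Complex.exp_im]
      apply mul_pos (Real.exp_pos _)
      have : (Complex.I * (2 * π * dst 0 φ₀)).im = (2 * π * dst 0 φ₀ : ℂ).re := by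
        rw [Complex.I_mul_im]
      rw [this, hu_re]
      exact Real.sin_pos_of_pos_of_lt_pi (by positivity) b2
    rw [e3] at e1
    set X := ex (2 * π * dst 0 φ₀)
    have e4 : (X - (1 + 2 * Complex.I)) * (5 * X - (1 - 2 * Complex.I)) = 0 := by
      have hI := Complex.I_sq
      field_simp at e1
      have e5 : X ^ 2 * (2 - Complex.I) + (2 - Complex.I) = 2 * X * (2 + Complex.I) := by
        linear_combination e1
      have e6 : (2 - Complex.I) * (X ^ 2 + 1) * (2 + Complex.I) =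
          2 * X * (2 + Complex.I) * (2 + Complex.I) := by
        linear_combination (2 + Complex.I) * e5
      have e7 : (2 - Complex.I) * (2 + Complex.I) = 5 := by linear_combination -hI
      linear_combination e6 - (X ^ 2 + 1) * e7 + (2 * X - 4) * hI
    rcases mul_eq_zero.1 e4 with h | h
    · linear_combination h
    · exfalso
      have h5 := congrArg Complex.im h
      have h6 : (5 * X - (1 - 2 * Complex.I)).im = 5 * X.im + 2 := by
        simp
      rw [h6] at h5
      simp at h5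
      linarith
  have hure : 2 * π * (dst 0 φ₀).re < π / 2 := by
    have h1 : 0 < (ex (2 * π * dst 0 φ₀)).re := by rw [hX]; simp
    unfold ex at h1
    rw [Complex.exp_re] at h1
    have h2 : (Complex.I * (2 * π * dst 0 φ₀)).im = 2 * π * (dst 0 φ₀).re := by
      rw [Complex.I_mul_im, hu_re]
    rw [h2] at h1
    by_contra hc
    push Not at hc
    have h3 : Real.cos (2 * π * (dst 0 φ₀).re) ≤ 0 :=
      Real.cos_nonpos_of_pi_div_two_le_of_le hc (by linarith)
    have h4 := Real.exp_pos (Complex.I * (2 * π * dst 0 φ₀)).re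
    nlinarith
  have hopen : Rc r r ×ˢ ball φ₀ r ∈ 𝓝 ((0 : ℂ), φ₀) :=
    ((Rc_open r r).prod isOpen_ball).mem_nhds ⟨m0, mφ⟩
  have hdc : ContinuousAt (fun p : ℂ × ℂ => dst p.1 p.2) ((0 : ℂ), φ₀) :=
    (hS.dan.differentiableAt hopen).continuousAt
  have huc : ContinuousAt (fun p : ℂ × ℂ => 2 * π * dst p.1 p.2) ((0 : ℂ), φ₀) :=
    continuousAt_const.mul hdc
  have c1 : ContinuousAt (fun p : ℂ × ℂ => p.1) ((0 : ℂ), φ₀) := continuousAt_fst
  have c2 : ContinuousAt (fun p : ℂ × ℂ => p.2) ((0 : ℂ), φ₀) := continuousAt_snd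
  have ex0 : ex 0 = 1 := by unfold ex; rw [mul_zero, Complex.exp_zero]
  have v1 := cont_t1 huc c1 (by
    simp only
    rw [hX, ex0]
    exact im_t1_one)
  have v2 := cont_t2 huc c1 (by
    simp only
    rw [hX, ex0]
    exact im_t2_one)
  have v3 := cont_t1 huc c2 (by
    simp only
    rw [hX, ex_zc]
    exact im_t1_w)
  have v4 := cont_t2 huc c2 (by
    simp only
    rw [hX, ex_zc]
    exact im_t2_w)
  have w1 : ∀ δ z : ℂ, (2 * π * δ + z) / 2 = π * δ + z / 2 := by intro δ z; ring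
  have w2 : ∀ δ z : ℂ, (2 * π * δ - z) / 2 = π * δ - z / 2 := by intro δ z; ring
  have q1 : |φ₀.re| < π := by rw [abs_of_pos i2]; exact i3
  obtain ⟨o1, o2⟩ := mem_Om_psi (δ := dst 0 φ₀) (ψ := 0) b1 (by simpa using b2)
  obtain ⟨o3, o4⟩ := mem_Om_phi' (δ := dst 0 φ₀) (φ := φ₀) b1 b2 b3 q1
  have v5 := cont_arg huc c1 (by simp only; rw [w2]; exact o2) (by simp only; rw [w1]; exact o1) (by
    simp only
    rw [sub_zero, add_zero, sub_self, abs_zero]
    exact Real.pi_pos)
  have h6 := abs_le.1 (le_refl |(dst 0 φ₀).im|)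
  have v6 := cont_arg huc c2 (by simp only; rw [w2]; exact o4) (by simp only; rw [w1]; exact o3) (by
    simp only
    rw [w1, w2]
    have hz := zc_re
    have n1 : (Complex.cos (π * dst 0 φ₀ - φ₀ / 2)).im < 0 := by
      rw [← Complex.cos_neg]
      apply cos_im_neg
      · rw [Complex.neg_re, Complex.sub_re, pi_mul_re, half_re]
        linarith
      · rw [Complex.neg_re, Complex.sub_re, pi_mul_re, half_re]
        have := mul_pos Real.pi_pos b1
        linarith
      · rw [Complex.neg_im, Complex.sub_im, pi_mul_im, half_im]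
        nlinarith [h6.1, h6.2]
    have n2 : (Complex.cos (π * dst 0 φ₀ + φ₀ / 2)).im < 0 := by
      have := mul_pos Real.pi_pos b1
      apply cos_im_neg
      · rw [Complex.add_re, pi_mul_re, half_re]
        linarith
      · rw [Complex.add_re, pi_mul_re, half_re]
        linarith
      · rw [Complex.add_im, pi_mul_im, half_im]
        nlinarith [h6.1, h6.2]
    obtain ⟨a1, a2⟩ := arg_neg_bounds n1
    obtain ⟨a3, a4⟩ := arg_neg_bounds n2
    rw [abs_lt]
    constructor <;> linarith)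
  have v7 : ∀ᶠ p in 𝓝 ((0 : ℂ), φ₀), 2 + Complex.cos p.1 + Complex.cos p.2 ≠ 0 := by
    have c3 : ContinuousAt (fun p : ℂ × ℂ => 2 + Complex.cos p.1 + Complex.cos p.2)
      ((0 : ℂ), φ₀) := by fun_prop
    apply c3.eventually_ne
    simp only
    rw [Complex.cos_zero, cos_zc]
    intro h0
    have h1 := congrArg Complex.im h0
    simp at h1
  have hall := (((((((v1.and v2).and v3).and v4).and v5).and v6).and v7).and hopen)
  obtain ⟨ε, hε, hb⟩ := Metric.eventually_nhds_iff.1 hall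
  refine ⟨ε / 2, by linarith, fun ψ φ n1 n2 => ⟨dst ψ φ, ?_⟩⟩
  have hd : dist (ψ, φ) ((0 : ℂ), φ₀) < ε := by
    rw [Prod.dist_eq]
    simp only [dist_eq_norm, sub_zero]
    rw [max_lt_iff]
    exact ⟨by linarith, by linarith⟩
  obtain ⟨⟨⟨⟨⟨⟨⟨k1, k2⟩, k3⟩, k4⟩, k5⟩, k6⟩, k7⟩, k8⟩ := hb hd
  obtain ⟨m1, m2⟩ := k8
  simp only at k1 k2 k3 k4 k5 k6 k7 m1 m2
  obtain ⟨s1, s2, s3⟩ := hS.dpos ψ m1 φ m2
  obtain ⟨g1, g2, g3⟩ := hS.im φ m2
  have g4 : |φ.re| < π := by rw [abs_of_pos g2]; exact g3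
  have hψre : |ψ.re| < π := lt_of_lt_of_le m1.1 (by linarith)
  have hs2 : 2 * π * (dst ψ φ).re < π := by linarith [abs_nonneg ψ.re]
  obtain ⟨p1, p2⟩ := mem_Om_psi s1 s2
  obtain ⟨p3, p4⟩ := mem_Om_phi' s1 hs2 s3 g4
  have hE : HE ψ φ (2 * π * dst ψ φ) :=
    ⟨⟨k1, k2⟩, ⟨k3, k4⟩, k7, hS.dcos ψ m1 φ m2, hψre, g4⟩
  refine ⟨hw hE, (hS.sder1 ψ m1 φ m2).deriv, (hS.sder2 ψ m1 φ m2).deriv, ?_⟩
  unfold sg
  have h12 : (dst ψ φ).re < 1 / 2 := by
    by_contra hcon
    push Not at hcon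
    nlinarith [Real.pi_pos]
  exact value p1 p2 p3 p4 s1 h12 (hS.dder ψ m1 φ m2) (Lg_im hE.sd k5) (Lg_im hE.sd' k6)

end Pool.Agent.N402.VK
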